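import Pool.Agent.H47.WTH.Stmts
import Pool.Agent.H25.MED.CHT

/-!
# WTH, module CHW: choice in a window
-/

set_option autoImplicit false

namespace Pool.WTH

open Finset Pool.Agent.H98.ABCR Pool.SHA Pool.ABY Pool.ABY.KNY71 Pool.VIO Pool.VIO.KNV85

namespace CHW47

lemma lm_nonneg (X η : ℝ) (n : ℕ) : 0 ≤ lm X η n :=
  Finset.sum_nonneg fun q _ => mul_nonneg (Nat.cast_nonneg _) (log_nonneg' q)

/-- unknown light mass of the coordinate `s` -/
noncomputable def um (X η : ℝ) (K : Finset ℕ) (v : ℕ × ℕ) (s : Fin 3) : ℝ :=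
  ∑ q ∈ (coord v s).primeFactors.filter (fun q => q ∉ K ∧ (q : ℝ) ≤ X ^ η),
    ((coord v s).factorization q : ℝ) * Real.log q

lemma um_le (X η : ℝ) (K : Finset ℕ) (v : ℕ × ℕ) (s : Fin 3) :
    um X η K v s ≤ lm X η (coord v s) := by
  unfold um lm
  apply Finset.sum_le_sum_of_subset_of_nonneg
  · intro q hq
    rw [Finset.mem_filter] at hq ⊢
    exact ⟨hq.1, hq.2.2⟩
  · intro q _ _
    exact mul_nonneg (Nat.cast_nonneg _) (log_nonneg' q)

lemma um_zero (X η : ℝ) (K : Finset ℕ) (v : ℕ × ℕ) (s : Fin 3)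
    (h : (coord v s).primeFactors ⊆ K) : um X η K v s = 0 := by
  unfold um
  apply Finset.sum_eq_zero
  intro q hq
  rw [Finset.mem_filter] at hq
  exact absurd (h hq.1) hq.2.1

lemma lig_eq2 (X η : ℝ) (K : Finset ℕ) (v : ℕ × ℕ) (i j k : Fin 3) (h1 : i ≠ j) (h2 : i ≠ k)
    (h3 : j ≠ k) : lig X η K i v = um X η K v j + um X η K v k := by
  have h := sum3 (fun s => um X η K v s) i j k h1 h2 h3
  have h4 : lig X η K i v = ∑ s ∈ univ.erase i, um X η K v s := rfl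
  rw [h4]
  have h5 := Finset.sum_erase_add (univ : Finset (Fin 3)) (fun s => um X η K v s)
    (Finset.mem_univ i)
  linarith

lemma thd (i k : Fin 3) (h : i ≠ k) : ∃ j : Fin 3, i ≠ j ∧ j ≠ k := by
  revert h; revert i k; decide

lemma optA_of (X h0 c η lam Y : ℝ) (v : ℕ × ℕ) (hv : IsTri v) (hR : (RR v : ℝ) ≤ X)
    (hlo : h0 ≤ hh v) (hup : hh v ≤ 2 * h0) (i j k : Fin 3) (h1 : i ≠ j) (h2 : i ≠ k)
    (h3 : j ≠ k) (K : Finset ℕ) (hY : ((∏ q ∈ K, q : ℕ) : ℝ) ≤ Y)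
    (hK : K ⊆ (nn v).primeFactors) (hw : c * h0 ≤ kl K (coord v i))
    (hl : um X η K v j + um X η K v k ≤ lam * h0) : OptA X h0 c η lam Y v := by
  refine ⟨i, K, hY, ⟨hv, hR, hlo, hup, hK, hw, ?_⟩⟩
  rw [lig_eq2 X η K v i j k h1 h2 h3]
  exact hl

/-- a massive large prime -/
lemma massive (X η c h0 : ℝ) (v : ℕ × ℕ) (hv : IsTri v) (hX : 1 < X) (hη : 0 < η)
    (hR : (RR v : ℝ) ≤ X) (hc : 0 < c) (h0p : 0 < h0) (s : Fin 3)
    (hm : c / η * h0 < Real.log (coord v s : ℝ) - lm X η (coord v s)) :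
    ∃ p ∈ (coord v s).primeFactors, X ^ η < (p : ℝ) ∧
      c * h0 ≤ ((coord v s).factorization p : ℝ) * Real.log p := by
  by_contra hcon
  push Not at hcon
  have hL : 0 < Real.log X := Real.log_pos hX
  set n := coord v s with hn
  set G := n.primeFactors.filter (fun q : ℕ => ¬ (q : ℝ) ≤ X ^ η) with hG
  have hsplit : Real.log (n : ℝ) = lm X η n +
      ∑ q ∈ G, (n.factorization q : ℝ) * Real.log q := by
    rw [← kl_full n.primeFactors n (Finset.Subset.refl _)]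
    unfold kl lm
    rw [hG, Finset.sum_filter_add_sum_filter_not]
  have hGs : ∑ q ∈ G, (n.factorization q : ℝ) * Real.log q ≤ G.card * (c * h0) := by
    rw [← nsmul_eq_mul]
    apply Finset.sum_le_card_nsmul
    intro q hq
    rw [hG, Finset.mem_filter] at hq
    exact (hcon q hq.1 (not_le.mp hq.2)).le
  have hcard : (G.card : ℝ) * η ≤ 1 := by
    have h1 : (G.card : ℝ) * (η * Real.log X) ≤ ∑ q ∈ G, Real.log (q : ℝ) := by
      rw [← nsmul_eq_mul]
      apply Finset.card_nsmul_le_sum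
      intro q hq
      rw [hG, Finset.mem_filter] at hq
      have h2 := not_le.mp hq.2
      have h3 : (0 : ℝ) < X ^ η := Real.rpow_pos_of_pos (by linarith) _
      have h4 := Real.log_le_log h3 h2.le
      rwa [Real.log_rpow (by linarith)] at h4
    have h2 : ∑ q ∈ G, Real.log (q : ℝ) ≤ Real.log (RR v : ℝ) := by
      unfold RR
      rw [log_rad]
      unfold LK
      apply Finset.sum_le_sum_of_subset_of_nonneg
      · exact (Finset.filter_subset _ _).trans (A_sub v hv s)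
      · intro q _ _; exact log_nonneg' q
    have h3 : Real.log (RR v : ℝ) ≤ Real.log X := by
      apply Real.log_le_log _ hR
      unfold RR
      exact Pool.MED.CHT25.rad_pos _
    have h4 : (G.card : ℝ) * η * Real.log X ≤ 1 * Real.log X := by
      rw [mul_assoc]; linarith
    exact le_of_mul_le_mul_right h4 hL
  have h5 : (G.card : ℝ) * (c * h0) ≤ c / η * h0 := by
    have h6 : (G.card : ℝ) ≤ 1 / η := by
      rw [le_div_iff₀ hη]; exact hcard
    calc (G.card : ℝ) * (c * h0) ≤ 1 / η * (c * h0) :=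
          mul_le_mul_of_nonneg_right h6 (by positivity)
      _ = c / η * h0 := by ring
  linarith

/-- richness in the sense of RIC -/
lemma ric_of (X ν : ℝ) (n : ℕ) (hn : 0 < n) (hX : 1 < X) (T : Finset ℕ)
    (hT : T ⊆ n.primeFactors) (hT1 : ((∏ q ∈ T, q : ℕ) : ℝ) ≤ X ^ ν)
    (hT2 : 3 * Real.log X ≤ kl T n) : Pool.RIC.Rich ν X n := by
  have hTp : ∀ q ∈ T, q.Prime := fun q hq => Nat.prime_of_mem_primeFactors (hT hq)
  refine ⟨∏ q ∈ T, q ^ n.factorization q, ?_, ?_, ?_⟩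
  · obtain ⟨B, hB, _⟩ := Pool.MED.CHT25.quot n hn.ne' T hT
    exact ⟨B, by rw [mul_comm]; exact hB⟩
  · apply Pool.MED.CHT25.rp_le X hX _ _ (Pool.MED.CHT25.prod_pow_pos T hTp _)
    rw [Pool.MED.CHT25.prod_pow_log T hTp]
    exact hT2
  · have h1 : (∏ q ∈ T, q ^ n.factorization q).primeFactors = T := by
      apply Pool.MED.CHT25.pfp T hTp
      intro q hq
      have h := hT hq
      rw [← Nat.support_factorization, Finsupp.mem_support_iff] at h
      omega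
    unfold rad
    rw [h1]
    exact hT1

/-- the levels -/
noncomputable def cs (ν : ℝ) (Λ : ℝ → ℝ) : ℕ → ℝ
  | 0 => ν / 16
  | (m + 1) => min (cs ν Λ m) (ν * min (Λ (cs ν Λ m)) 1 / 4) / 2

lemma cs_pos (ν : ℝ) (Λ : ℝ → ℝ) (hν : 0 < ν) (hν1 : ν ≤ 1)
    (hΛ : ∀ x, 0 < x → x ≤ 1 → 0 < Λ x) (m : ℕ) : 0 < cs ν Λ m ∧ cs ν Λ m ≤ ν / 16 := by
  induction m with
  | zero => exact ⟨by unfold cs; positivity, by unfold cs; exact le_rfl⟩
  | succ m ih =>
    have h1 : 0 < Λ (cs ν Λ m) := hΛ _ ih.1 (by linarith [ih.2])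
    have h2 : 0 < min (Λ (cs ν Λ m)) 1 := lt_min h1 one_pos
    have h3 : 0 < min (cs ν Λ m) (ν * min (Λ (cs ν Λ m)) 1 / 4) :=
      lt_min ih.1 (by positivity)
    have h4 : min (cs ν Λ m) (ν * min (Λ (cs ν Λ m)) 1 / 4) ≤ cs ν Λ m := min_le_left _ _
    constructor
    · show 0 < min (cs ν Λ m) (ν * min (Λ (cs ν Λ m)) 1 / 4) / 2
      positivity
    · show min (cs ν Λ m) (ν * min (Λ (cs ν Λ m)) 1 / 4) / 2 ≤ ν / 16
      linarith [ih.2]

lemma cs_anti (ν : ℝ) (Λ : ℝ → ℝ) (hν : 0 < ν) (hν1 : ν ≤ 1)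
    (hΛ : ∀ x, 0 < x → x ≤ 1 → 0 < Λ x) (m n : ℕ) (h : m ≤ n) : cs ν Λ n ≤ cs ν Λ m := by
  induction n, h using Nat.le_induction with
  | base => exact le_rfl
  | succ n hn ih =>
    have h1 := cs_pos ν Λ hν hν1 hΛ n
    have h4 : min (cs ν Λ n) (ν * min (Λ (cs ν Λ n)) 1 / 4) ≤ cs ν Λ n := min_le_left _ _
    refine le_trans ?_ ih
    show min (cs ν Λ n) (ν * min (Λ (cs ν Λ n)) 1 / 4) / 2 ≤ cs ν Λ n
    linarith [h1.1]

lemma cs_gap (ν : ℝ) (Λ : ℝ → ℝ) (hν : 0 < ν) (hν1 : ν ≤ 1)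
    (hΛ : ∀ x, 0 < x → x ≤ 1 → 0 < Λ x) (m n : ℕ) (h : m < n) :
    2 * cs ν Λ n / ν ≤ min (Λ (cs ν Λ m)) 1 / 2 := by
  have h1 := cs_anti ν Λ hν hν1 hΛ (m + 1) n h
  have h2 : cs ν Λ (m + 1) ≤ ν * min (Λ (cs ν Λ m)) 1 / 4 / 2 := by
    show min (cs ν Λ m) (ν * min (Λ (cs ν Λ m)) 1 / 4) / 2 ≤ ν * min (Λ (cs ν Λ m)) 1 / 4 / 2
    have := min_le_right (cs ν Λ m) (ν * min (Λ (cs ν Λ m)) 1 / 4)
    linarith
  have h3 := cs_pos ν Λ hν hν1 hΛ m
  have h5 : 0 < min (Λ (cs ν Λ m)) 1 := lt_min (hΛ _ h3.1 (by linarith [h3.2])) one_pos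
  rw [div_le_iff₀ hν]
  nlinarith

/-- a level which is avoided -/
lemma level (ν : ℝ) (Λ : ℝ → ℝ) (hν : 0 < ν) (hν1 : ν ≤ 1)
    (hΛ : ∀ x, 0 < x → x ≤ 1 → 0 < Λ x) (h0 : ℝ) (hh0 : 0 < h0) (μ : Fin 3 → ℝ) :
    ∃ m : Fin 4, ∀ i, μ i ≤ min (Λ (cs ν Λ m)) 1 / 2 * h0 ∨ 2 * cs ν Λ m / ν * h0 < μ i := by
  by_contra hcon
  push Not at hcon
  choose f hf using hcon
  obtain ⟨m, n, hmn, hfe⟩ := Fintype.exists_ne_map_eq_of_card_lt f (by simp)
  have key : ∀ m n : Fin 4, m < n → f m = f n → False := by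
    intro m n hlt he
    have a1 := (hf m).1
    have a2 := (hf n).2
    rw [← he] at a2
    have a3 := cs_gap ν Λ hν hν1 hΛ (m : ℕ) (n : ℕ) (by exact_mod_cast hlt)
    have a4 : 2 * cs ν Λ n / ν * h0 ≤ min (Λ (cs ν Λ m)) 1 / 2 * h0 :=
      mul_le_mul_of_nonneg_right a3 hh0.le
    linarith
  rcases lt_or_gt_of_ne hmn with h | h
  · exact key m n h hfe
  · exact key n m h hfe.symm

/-- two rich coordinates -/
lemma two_rich (X h0 ν c lam : ℝ) (v : ℕ × ℕ) (hX : 3 ≤ X) (hv : IsTri v)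
    (hR : (RR v : ℝ) ≤ X) (hlo : h0 ≤ hh v) (hup : hh v ≤ 2 * h0)
    (i j k : Fin 3) (h1 : i ≠ j) (h2 : i ≠ k) (h3 : j ≠ k) (T : Finset ℕ)
    (hT : T ⊆ (coord v i).primeFactors) (hT1 : ((∏ q ∈ T, q : ℕ) : ℝ) ≤ X ^ ν)
    (hT2 : c * h0 ≤ kl T (coord v i)) (hT3 : 3 * Real.log X ≤ kl T (coord v i))
    (hk : lm X (ν / 2) (coord v k) ≤ lam * h0) 
    (hrad : rad (coord v j) ≤ rad (coord v i)) :
    OptA X h0 c (ν / 2) lam (X ^ (1 / 3 + ν)) v ∨
    (∃ i, (X / 2) ^ (1 / 3 : ℝ) ≤ (rad (coord v i) : ℝ) ∧ Pool.RIC.Rich ν X (coord v i)) := by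
  have hX0 : 0 < X := by linarith
  by_cases hj : (rad (coord v j) : ℝ) ≤ X ^ (1 / 3 : ℝ)
  · left
    refine optA_of X h0 c (ν / 2) lam _ v hv hR hlo hup i j k h1 h2 h3
      (T ∪ (coord v j).primeFactors) ?_ ?_ ?_ ?_
    · have hdis : Disjoint T (coord v j).primeFactors :=
        Finset.disjoint_of_subset_left hT (disj v hv i j h1)
      rw [Finset.prod_union hdis]
      push_cast
      rw [Real.rpow_add hX0, mul_comm (X ^ (1 / 3 : ℝ))]
      have e1 : ((∏ q ∈ T, q : ℕ) : ℝ) = ∏ q ∈ T, (q : ℝ) := by push_cast; rfl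
      have e2 : (rad (coord v j) : ℝ) = ∏ q ∈ (coord v j).primeFactors, (q : ℝ) := by
        unfold rad; push_cast; rfl
      rw [← e1, ← e2]
      apply mul_le_mul hT1 hj (Nat.cast_nonneg _) (Real.rpow_nonneg hX0.le _)
    · exact Finset.union_subset (hT.trans (A_sub v hv i)) (A_sub v hv j)
    · exact hT2.trans (kl_mono _ _ _ Finset.subset_union_left)
    · rw [um_zero X (ν / 2) _ v j Finset.subset_union_right, zero_add]
      exact (um_le _ _ _ v k).trans hk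
  · right
    rw [not_le] at hj
    refine ⟨i, ?_, ric_of X ν (coord v i) (coord_pos v hv i) (by linarith) T hT hT1 hT3⟩
    have a1 : (X / 2) ^ (1 / 3 : ℝ) ≤ X ^ (1 / 3 : ℝ) :=
      Real.rpow_le_rpow (by linarith) (by linarith) (by norm_num)
    have a2 : (rad (coord v j) : ℝ) ≤ (rad (coord v i) : ℝ) := by exact_mod_cast hrad
    linarith

/-- one radical is large -/
lemma big_rad (X : ℝ) (v : ℕ × ℕ) (hX : 3 ≤ X) (hv : IsTri v) (h : X / 2 < (RR v : ℝ)) :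
    ∃ i, (X / 2) ^ (1 / 3 : ℝ) ≤ (rad (coord v i) : ℝ) := by
  by_contra hcon
  push Not at hcon
  have h1 := log_RR v hv
  have hXp : 0 < X / 2 := by linarith
  have h2 : ∀ s : Fin 3, LK (A v s) < 1 / 3 * Real.log (X / 2) := by
    intro s
    have h3 := Real.log_lt_log (Pool.MED.CHT25.rad_pos _) (hcon s)
    rw [Real.log_rpow hXp, log_rad] at h3
    exact h3
  have h3 : Real.log (X / 2) < Real.log (RR v : ℝ) := Real.log_lt_log hXp h
  have := h2 0
  have := h2 1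
  have := h2 2
  linarith

end CHW47

open CHW47

theorem chw_thm (hT : S_TGR) : S_CHW := by
  intro ν Λ hν hν1 hΛ
  have hpos := cs_pos ν Λ hν hν1 hΛ
  refine ⟨fun m => cs ν Λ m, 3 / cs ν Λ 3, ?_, ?_, ?_⟩
  · intro m
    exact ⟨(hpos m).1, by linarith [(hpos m).2]⟩
  · rw [le_div_iff₀ (hpos 3).1]
    linarith [(hpos 3).2]
  intro X h0 v hX hK hv hR hR2 hlo hup
  have hX0 : 0 < X := by linarith
  have hX1 : 1 < X := by linarith
  have hL : 0 < Real.log X := Real.log_pos hX1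
  have hL1 : 1 ≤ Real.log X := by
    have h3 : Real.exp 1 ≤ X := by linarith [Real.exp_one_lt_d9]
    have := Real.log_le_log (Real.exp_pos 1) h3
    rwa [Real.log_exp] at this
  have hc3 := (hpos 3).1
  have hc3' := (hpos 3).2
  have hK3 : 3 * Real.log X ≤ cs ν Λ 3 * h0 := by
    have h1 : cs ν Λ 3 * (3 / cs ν Λ 3 * Real.log X) ≤ cs ν Λ 3 * h0 :=
      mul_le_mul_of_nonneg_left hK hc3.le
    have h2 : cs ν Λ 3 * (3 / cs ν Λ 3 * Real.log X) = 3 * Real.log X := by field_simp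
    linarith
  have h0big : 48 * Real.log X ≤ h0 := by
    have h1 : cs ν Λ 3 ≤ 1 / 16 := by linarith
    have h2 : 0 < h0 := by
      by_contra hn
      rw [not_lt] at hn
      nlinarith
    nlinarith
  have h0p : 0 < h0 := by linarith
  have hl2 : Real.log 2 ≤ 1 := by linarith [Real.log_two_lt_d9]
  obtain ⟨m, hm⟩ := level ν Λ hν hν1 hΛ h0 h0p (fun i => lm X (ν / 2) (coord v i))
  have hcm := hpos (m : ℕ)
  have hcm3 : cs ν Λ 3 ≤ cs ν Λ m := cs_anti ν Λ hν hν1 hΛ m 3 (by omega)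
  set c := cs ν Λ m with hc
  have hΛc : 0 < Λ c := hΛ c hcm.1 (by linarith [hcm.2])
  set l' := min (Λ c) 1 with hl'
  have hl'0 : 0 < l' := lt_min hΛc one_pos
  have hl'1 : l' ≤ 1 := min_le_right _ _
  have hl'Λ : l' ≤ Λ c := min_le_left _ _
  have hK3c : 3 * Real.log X ≤ c * h0 := by nlinarith
  have hcp := coord_pos v hv
  have hradX : ∀ s, (rad (coord v s) : ℝ) ≤ X := by
    intro s
    have h1 : rad (coord v s) ≤ RR v := by
      unfold RR rad
      exact Finset.prod_le_prod_of_subset_of_one_le' (A_sub v hv s)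
        (fun q hq _ => (Nat.prime_of_mem_primeFactors hq).one_lt.le)
    have h2 : (rad (coord v s) : ℝ) ≤ (RR v : ℝ) := by exact_mod_cast h1
    linarith
  -- greedy sets
  have rich : ∀ s, 2 * c / ν * h0 < lm X (ν / 2) (coord v s) →
      ∃ T : Finset ℕ, T ⊆ (coord v s).primeFactors ∧ ((∏ q ∈ T, q : ℕ) : ℝ) ≤ X ^ ν ∧
        c * h0 ≤ kl T (coord v s) ∧ 3 * Real.log X ≤ kl T (coord v s) := by
    intro s hs
    obtain ⟨T, hT1, hT2, hT3⟩ := hT X (ν / 2) ν (coord v s) hX1 (by linarith) hν hν1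
      (by linarith) (hcp s) (hradX s)
    have h4 : c * h0 ≤ kl T (coord v s) := by
      have h5 : ν / 2 * (2 * c / ν * h0) ≤ ν / 2 * lm X (ν / 2) (coord v s) :=
        mul_le_mul_of_nonneg_left hs.le (by linarith)
      have h6 : ν / 2 * (2 * c / ν * h0) = c * h0 := by field_simp
      linarith
    exact ⟨T, hT1.trans (Finset.filter_subset _ _), hT2, h4, by linarith⟩
  have hXν : X ^ ν ≤ X ^ (1 / 3 + ν) :=
    Real.rpow_le_rpow_of_exponent_le hX1.le (by linarith)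
  -- one rich coordinate and two poor ones
  have one_rich : ∀ i j k : Fin 3, i ≠ j → i ≠ k → j ≠ k →
      2 * c / ν * h0 < lm X (ν / 2) (coord v i) →
      lm X (ν / 2) (coord v j) ≤ l' / 2 * h0 → lm X (ν / 2) (coord v k) ≤ l' / 2 * h0 →
      OptA X h0 c (ν / 2) (Λ c) (X ^ (1 / 3 + ν)) v := by
    intro i j k h1 h2 h3 hi hj hk
    obtain ⟨T, t1, t2, t3, t4⟩ := rich i hi
    refine optA_of X h0 c (ν / 2) (Λ c) _ v hv hR hlo hup i j k h1 h2 h3 T (t2.trans hXν)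
      (t1.trans (A_sub v hv i)) t3 ?_
    have a1 := um_le X (ν / 2) T v j
    have a2 := um_le X (ν / 2) T v k
    have a3 : l' * h0 ≤ Λ c * h0 := mul_le_mul_of_nonneg_right hl'Λ h0p.le
    linarith
  have two : ∀ i j k : Fin 3, i ≠ j → i ≠ k → j ≠ k →
      2 * c / ν * h0 < lm X (ν / 2) (coord v i) →
      2 * c / ν * h0 < lm X (ν / 2) (coord v j) → lm X (ν / 2) (coord v k) ≤ l' / 2 * h0 →
      OptA X h0 c (ν / 2) (Λ c) (X ^ (1 / 3 + ν)) v ∨
      (∃ i, (X / 2) ^ (1 / 3 : ℝ) ≤ (rad (coord v i) : ℝ) ∧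
        Pool.RIC.Rich ν X (coord v i)) := by
    intro i j k h1 h2 h3 hi hj hk
    have a3 : l' / 2 * h0 ≤ Λ c * h0 := mul_le_mul_of_nonneg_right (by linarith) h0p.le
    obtain ⟨T, t1, t2, t3, t4⟩ := rich i hi
    obtain ⟨T', t1', t2', t3', t4'⟩ := rich j hj
    rcases le_total (rad (coord v j)) (rad (coord v i)) with hle | hle
    · exact two_rich X h0 ν c (Λ c) v hX hv hR hlo hup i j k h1 h2 h3 T t1 t2 t3 t4
        (hk.trans a3) hle
    · exact two_rich X h0 ν c (Λ c) v hX hv hR hlo hup j i k h1.symm h3 h2 T' t1' t2' t3'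
        t4' (hk.trans a3) hle
  have conv : (OptA X h0 c (ν / 2) (Λ c) (X ^ (1 / 3 + ν)) v ∨
      (∃ i, (X / 2) ^ (1 / 3 : ℝ) ≤ (rad (coord v i) : ℝ) ∧
        Pool.RIC.Rich ν X (coord v i))) →
      ((∃ m : Fin 4, OptA X h0 (cs ν Λ m) (ν / 2) (Λ (cs ν Λ m)) (X ^ (1 / 3 + ν)) v) ∨
      (∃ i, (X / 2) ^ (1 / 3 : ℝ) ≤ (rad (coord v i) : ℝ) ∧
        Pool.RIC.Rich ν X (coord v i)) ∨
      (∃ p1 p2 : ℕ, p1.Prime ∧ p2.Prime ∧ p1 ≠ p2 ∧ p1 ∣ nn v ∧ p2 ∣ nn v ∧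
      X ^ (1 / 3 : ℝ) < p1 ∧ X ^ (1 / 3 : ℝ) < p2)) := by
    rintro (h | h)
    · exact Or.inl ⟨m, h⟩
    · exact Or.inr (Or.inl h)
  by_cases hallrich : ∀ s, 2 * c / ν * h0 < lm X (ν / 2) (coord v s)
  · right; left
    obtain ⟨i, hi⟩ := big_rad X v hX hv hR2
    obtain ⟨T, t1, t2, t3, t4⟩ := rich i (hallrich i)
    exact ⟨i, hi, ric_of X ν (coord v i) (hcp i) hX1 T t1 t2 t4⟩
  by_cases hallpoor : ∀ s, lm X (ν / 2) (coord v s) ≤ l' / 2 * h0
  · -- all poor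
    have hη : c / (ν / 2) ≤ 1 / 8 := by
      rw [div_le_iff₀ (by linarith)]
      linarith [hcm.2]
    have hsingle : ∀ i j k : Fin 3, i ≠ j → i ≠ k → j ≠ k → ∀ p ∈ (coord v i).primeFactors,
        c * h0 ≤ ((coord v i).factorization p : ℝ) * Real.log p →
        (p : ℝ) ≤ X ^ (1 / 3 : ℝ) → OptA X h0 c (ν / 2) (Λ c) (X ^ (1 / 3 + ν)) v := by
      intro i j k h1 h2 h3 p hp hpc hp3
      refine optA_of X h0 c (ν / 2) (Λ c) _ v hv hR hlo hup i j k h1 h2 h3 {p} ?_ ?_ ?_ ?_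
      · rw [Finset.prod_singleton]
        exact hp3.trans (Real.rpow_le_rpow_of_exponent_le hX1.le (by linarith))
      · rw [Finset.singleton_subset_iff]; exact A_sub v hv i hp
      · unfold kl; rw [Finset.sum_singleton]; exact hpc
      · have a1 := (um_le X (ν / 2) {p} v j).trans (hallpoor j)
        have a2 := (um_le X (ν / 2) {p} v k).trans (hallpoor k)
        have a3 : l' * h0 ≤ Λ c * h0 := mul_le_mul_of_nonneg_right hl'Λ h0p.le
        linarith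
    have hh2 : Real.log (coord v 2 : ℝ) = hh v := rfl
    have hl'h : l' / 2 * h0 ≤ 1 / 2 * h0 := mul_le_mul_of_nonneg_right (by linarith) h0p.le
    have hηh : c / (ν / 2) * h0 ≤ 1 / 8 * h0 := mul_le_mul_of_nonneg_right hη h0p.le
    obtain ⟨p1, hp1, hp1X, hp1c⟩ := massive X (ν / 2) c h0 v hv hX1 (by linarith) hR hcm.1 h0p 2
      (by rw [hh2]; have := hallpoor 2; linarith)
    obtain ⟨s, k, hs2, hsk, hk2, hslog⟩ : ∃ s k : Fin 3, s ≠ 2 ∧ s ≠ k ∧ k ≠ 2 ∧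
        hh v - Real.log 2 ≤ Real.log (coord v s : ℝ) := by
      rcases le_total v.2 v.1 with hle | hle
      · refine ⟨0, 1, by decide, by decide, by decide, ?_⟩
        exact log_le_of v.1 v.2 hv.1 hv.2.1 hle
      · refine ⟨1, 0, by decide, by decide, by decide, ?_⟩
        have := log_le_of v.2 v.1 hv.2.1 hv.1 hle
        unfold hh
        rw [add_comm v.1 v.2]
        exact this
    obtain ⟨p2, hp2, hp2X, hp2c⟩ := massive X (ν / 2) c h0 v hv hX1 (by linarith) hR hcm.1 h0p s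
      (by have := hallpoor s; linarith)
    by_cases h13 : (p1 : ℝ) ≤ X ^ (1 / 3 : ℝ)
    · exact conv (Or.inl (hsingle 2 s k hs2.symm hk2.symm hsk p1 hp1 hp1c h13))
    by_cases h23 : (p2 : ℝ) ≤ X ^ (1 / 3 : ℝ)
    · exact conv (Or.inl (hsingle s 2 k hs2 hsk hk2.symm p2 hp2 hp2c h23))
    right; right
    refine ⟨p1, p2, Nat.prime_of_mem_primeFactors hp1, Nat.prime_of_mem_primeFactors hp2, ?_,
      Nat.dvd_of_mem_primeFactors (A_sub v hv 2 hp1),
      Nat.dvd_of_mem_primeFactors (A_sub v hv s hp2), not_le.mp h13, not_le.mp h23⟩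
    intro he
    rw [he] at hp1
    exact Finset.disjoint_left.mp (disj v hv 2 s hs2.symm) hp1 hp2
  · -- mixed
    push Not at hallrich hallpoor
    obtain ⟨k, hk⟩ := hallrich
    obtain ⟨i, hi⟩ := hallpoor
    have hk' : lm X (ν / 2) (coord v k) ≤ l' / 2 * h0 := by
      rcases hm k with h | h
      · exact h
      · exact absurd h (not_lt.mpr hk)
    have hi' : 2 * c / ν * h0 < lm X (ν / 2) (coord v i) := by
      rcases hm i with h | h
      · exact absurd h (not_le.mpr hi)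
      · exact h
    have hik : i ≠ k := by
      rintro rfl
      exact absurd hi' (not_lt.mpr hk)
    obtain ⟨j, hji, hjk⟩ := thd i k hik
    rcases hm j with h | h
    · exact conv (Or.inl (one_rich i j k hji hik hjk hi' h hk'))
    · exact conv (two i j k hji hik hjk hi' h hk')

end Pool.WTH
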