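import Pool.Agent.H10.RIC.Stmts

/-!
# WTH: exceptions to weak abc of polynomial height: at most `C X ^ (1 / 3 + ε)`

Module `XXX` is a theorem `xxx_thm (h1 : S_AAA) ... : S_XXX` in `Pool/Agent/H<k>/WTH/XXX.lean`
(import this file, namespace `Pool.WTH`).
-/

set_option autoImplicit false

namespace Pool.WTH

open Finset Pool.Agent.H98.ABCR Pool.SHA Pool.VIO

/-- mass of the light primes (`≤ X ^ η`) of `n` -/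
noncomputable def lm (X η : ℝ) (n : ℕ) : ℝ :=
  ∑ q ∈ n.primeFactors.filter (fun q : ℕ => (q : ℝ) ≤ X ^ η), (n.factorization q : ℝ) * Real.log q

/-- TGR: greedy.  `Pool.VIO.S_GRL` (`grl_thm`) for the light primes with `c q = log q / log X ≤ η`,
`μ q = e_q log q`, `θ = 1 - ν / 2`; `T` is the complement of `F`: its cost is at most
`ν / 2 + η ≤ ν`, its mass at least `ν / 2` times the mass. -/
def S_TGR : Prop := ∀ (X η ν : ℝ) (n : ℕ), 1 < X → 0 < η → 0 < ν → ν ≤ 1 → 2 * η ≤ ν → 0 < n →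
  (rad n : ℝ) ≤ X → ∃ T ⊆ n.primeFactors.filter (fun q : ℕ => (q : ℝ) ≤ X ^ η),
    ((∏ q ∈ T, q : ℕ) : ℝ) ≤ X ^ ν ∧ ν / 2 * lm X η n ≤ kl T n

/-- `S_LPF` applies to `v` with a known set of product `≤ Y` -/
def OptA (X h0 c η lam Y : ℝ) (v : ℕ × ℕ) : Prop :=
  ∃ (i : Fin 3) (K : Finset ℕ), ((∏ q ∈ K, q : ℕ) : ℝ) ≤ Y ∧ Fam X h0 c η lam K i v

/-- CLA: from `Pool.VIO.S_LPF`: for each `i` and each `K` (a set of primes, `K ↦ ∏ K` is injective, so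
at most `Y` sets) at most `X ^ ε` triples. -/
def S_CLA : Prop := ∀ c η ε : ℝ, 0 < c → c ≤ 1 → 0 < η → η ≤ 1 → 0 < ε → ∃ lam κ0 X0 : ℝ,
  0 < lam ∧ 1 ≤ κ0 ∧ 3 ≤ X0 ∧ ∀ (X h0 Y : ℝ) (F : Finset (ℕ × ℕ)),
    X0 ≤ X → κ0 * Real.log X ≤ h0 → 1 ≤ Y → (∀ v ∈ F, OptA X h0 c η lam Y v) →
    (F.card : ℝ) ≤ 3 * Y * X ^ ε

/-- CHW: choice in a window.  `η = ν / 2`, `Λ' = min Λ 1`, `c 0 = η / 8`,
`c (m + 1) = min (c m) (ν Λ' (c m) / 4) / 2`: the intervals `(Λ' (c m) / 2, 2 c m / ν]` are disjoint, so for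
some `m` every coordinate is POOR (`lm ≤ Λ' (c m) / 2 * h0`) or RICH (`lm > 2 c m / ν * h0`; then `S_TGR`
gives `T` of product `≤ X ^ ν` with `c m * h0 ≤ kl T`, so `Pool.RIC.Rich ν X` as `c m * K ≥ 3`).
One rich `i`, two poor: `K = T`.  Two rich `i, j`, one poor, `rad_j ≤ rad_i`: if `rad_j ≤ X ^ (1/3)`
then `K = T ∪` all primes of the coordinate `j`; otherwise the second alternative for `i`.  Three rich: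
the second alternative for the coordinate of radical `≥ (X / 2) ^ (1 / 3)`.  All poor: the coordinates
`2` and `argmax (v.1, v.2)` have large primes (`> X ^ η`, fewer than `1 / η`) of mass
`≥ η / 4 * h0 ≥ c m * h0`; if one of them is `≤ X ^ (1 / 3)`: `K = {p}`; else third alternative. -/
def S_CHW : Prop := ∀ (ν : ℝ) (Λ : ℝ → ℝ), 0 < ν → ν ≤ 1 → (∀ x, 0 < x → x ≤ 1 → 0 < Λ x) →
  ∃ (c : Fin 4 → ℝ) (K : ℝ), (∀ m, 0 < c m ∧ c m ≤ 1) ∧ 1 ≤ K ∧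
  ∀ (X h0 : ℝ) (v : ℕ × ℕ), 3 ≤ X → K * Real.log X ≤ h0 → IsTri v → (RR v : ℝ) ≤ X →
    X / 2 < (RR v : ℝ) → h0 ≤ hh v → hh v ≤ 2 * h0 →
    (∃ m, OptA X h0 (c m) (ν / 2) (Λ (c m)) (X ^ (1 / 3 + ν)) v) ∨
    (∃ i, (X / 2) ^ (1 / 3 : ℝ) ≤ (rad (coord v i) : ℝ) ∧ Pool.RIC.Rich ν X (coord v i)) ∨
    (∃ p1 p2 : ℕ, p1.Prime ∧ p2.Prime ∧ p1 ≠ p2 ∧ p1 ∣ nn v ∧ p2 ∣ nn v ∧
      X ^ (1 / 3 : ℝ) < p1 ∧ X ^ (1 / 3 : ℝ) < p2)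

/-- CLC: triples with two primes `> X ^ (1 / 3)`: `Pool.PW.S_PWF` with `N = 2`, `E = 0`,
`r = RR v / (p1 p2) < X ^ (1 / 3)`; `om r ≤ om (RR v)`, and
`om (RR v) * log (2 + κ log X / om (RR v)) ≤ η log X` for `X ≥ X0(κ)` (`Pool.FEX.S_OMB` with a large `C`
gives `om ≤ δ log X + C'`, and `t log (2 + κ L / t)` increases in `t`); smaller `X`: finitely many pairs. -/
def S_CLC : Prop := ∀ ε : ℝ, 0 < ε → ∃ K : ℝ, 1 ≤ K ∧ ∀ κ : ℝ, 1 ≤ κ → ∃ C : ℝ, 1 ≤ C ∧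
  ∀ (X : ℝ) (F : Finset (ℕ × ℕ)), 1 ≤ X →
  (∀ v ∈ F, IsTri v ∧ (RR v : ℝ) ≤ X ∧ K * Real.log X ≤ hh v ∧ hh v ≤ κ * Real.log X ∧
    ∃ p1 p2 : ℕ, p1.Prime ∧ p2.Prime ∧ p1 ≠ p2 ∧ p1 ∣ nn v ∧ p2 ∣ nn v ∧
      X ^ (1 / 3 : ℝ) < p1 ∧ X ^ (1 / 3 : ℝ) < p2) →
  (F.card : ℝ) ≤ C * X ^ (1 / 3 + ε)

/-- WIN: one window.  `ν = min (ε / 4) 1`, `Λ c` from `S_CLA c (ν / 2) (ε / 4)`; `Pool.RIC.S_RCH` with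
`Y = (X / 2) ^ (1 / 3)`. -/
def S_WIN : Prop := ∀ ε : ℝ, 0 < ε → ∃ K : ℝ, 1 ≤ K ∧ ∀ κ : ℝ, 1 ≤ κ → ∃ C : ℝ, 1 ≤ C ∧
  ∀ (X h0 : ℝ) (F : Finset (ℕ × ℕ)), 1 ≤ X → K * Real.log X ≤ h0 → h0 ≤ κ * Real.log X →
  (∀ v ∈ F, IsTri v ∧ (RR v : ℝ) ≤ X ∧ X / 2 < (RR v : ℝ) ∧ h0 ≤ hh v ∧ hh v ≤ 2 * h0) →
  (F.card : ℝ) ≤ C * X ^ (1 / 3 + ε)

/-- WTH: THEOREM.  Dyadic in the radical (`Z / 2 < RR v ≤ Z`, `Z = 2 ^ j`, `Z ≥ 4`: `log RR v ≥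
log Z / 2`; smaller: boundedly many pairs) and in the height (`h0 = K_WIN log Z * 2 ^ l`,
boundedly many `l`); geometric sum over `Z`. -/
def S_WTH : Prop := ∀ ε : ℝ, 0 < ε → ∃ K : ℝ, 1 ≤ K ∧ ∀ κ : ℝ, 1 ≤ κ → ∃ C : ℝ, 1 ≤ C ∧
  ∀ (X : ℝ) (F : Finset (ℕ × ℕ)), 1 ≤ X →
  (∀ v ∈ F, IsTri v ∧ (RR v : ℝ) ≤ X ∧ K * Real.log (RR v) ≤ hh v ∧
    hh v ≤ κ * Real.log (RR v)) →
  (F.card : ℝ) ≤ C * X ^ (1 / 3 + ε)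

end Pool.WTH
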